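import Pool.Agent.W841.PK.Api

set_option autoImplicit false

/-!
Exponential moments of edge sums and discrepancy bounds.
-/

namespace Pool.Agent.W782.PK

open Finset W841.PK
open scoped Classical

noncomputable section

variable {n : ℕ}

/-- toggle the pair `a b` -/
def tog (a b : Fin n) (G : SimpleGraph (Fin n)) : SimpleGraph (Fin n) where
  Adj x y := x ≠ y ∧ (if s(x, y) = s(a, b) then ¬ G.Adj x y else G.Adj x y)
  symm := ⟨by
    intro x y h
    refine ⟨h.1.symm, ?_⟩
    have e : s(y, x) = s(x, y) := Sym2.eq_swap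
    rw [e, G.adj_comm y x]
    exact h.2⟩
  loopless := ⟨fun _ h => h.1 rfl⟩

lemma tog_tog (a b : Fin n) (G : SimpleGraph (Fin n)) : tog a b (tog a b G) = G := by
  ext x y
  show x ≠ y ∧ (if s(x, y) = s(a, b) then ¬ (x ≠ y ∧ (if s(x, y) = s(a, b) then ¬ G.Adj x y
    else G.Adj x y)) else (x ≠ y ∧ (if s(x, y) = s(a, b) then ¬ G.Adj x y else G.Adj x y))) ↔ _
  by_cases hxy : x = y
  · subst hxy; simp
  · by_cases h : s(x, y) = s(a, b)
    · simp [h, hxy]
    · simp [h, hxy]

lemma ee_tog (a b : Fin n) (G : SimpleGraph (Fin n)) (x y : Fin n) :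
    ee (tog a b G) x y = if s(x, y) = s(a, b) then - ee G x y else ee G x y := by
  unfold ee
  by_cases hxy : x = y
  · simp [hxy]
  · have : (tog a b G).Adj x y ↔ (if s(x, y) = s(a, b) then ¬ G.Adj x y else G.Adj x y) :=
      ⟨fun h => h.2, fun h => ⟨hxy, h⟩⟩
    rw [if_neg hxy, if_neg hxy]
    by_cases h : s(x, y) = s(a, b)
    · rw [if_pos h] at this ⊢
      by_cases hG : G.Adj x y
      · rw [if_pos hG, if_neg (fun h' => this.mp h' hG)]
      · rw [if_neg hG, if_pos (this.mpr hG)]; norm_num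
    · rw [if_neg h] at this ⊢
      by_cases hG : G.Adj x y
      · rw [if_pos hG, if_pos (this.mpr hG)]
      · rw [if_neg hG, if_neg (fun h' => hG (this.mp h'))]

lemma Ex_tog (a b : Fin n) (f : SimpleGraph (Fin n) → ℝ) : Ex (fun G => f (tog a b G)) = Ex f := by
  unfold Ex
  congr 1
  exact Finset.sum_nbij' (tog a b) (tog a b) (fun _ _ => mem_univ _) (fun _ _ => mem_univ _)
    (fun G _ => tog_tog a b G) (fun G _ => tog_tog a b G) (fun _ _ => rfl)

/-- averaging over one pair -/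
lemma Ex_cosh (a b : Fin n) (F : SimpleGraph (Fin n) → ℝ) (hF : ∀ G, F (tog a b G) = F G)
    (hab : a ≠ b) (c : ℝ) :
    Ex (fun G => F G * Real.exp (c * ee G a b)) = Real.cosh c * Ex F := by
  have h1 : Ex (fun G => F G * Real.exp (c * ee G a b))
      = Ex (fun G => F G * Real.exp (-(c * ee G a b))) := by
    rw [← Ex_tog a b]
    apply Ex_congr
    intro G
    rw [hF, ee_tog, if_pos rfl, mul_neg]
  have h2 : Ex (fun G => F G * Real.exp (c * ee G a b)) +
      Ex (fun G => F G * Real.exp (-(c * ee G a b))) = 2 * (Real.cosh c * Ex F) := by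
    rw [← Ex_add, ← mul_assoc, ← Ex_mul_left]
    apply Ex_congr
    intro G
    rw [Real.cosh_eq]
    have h3 : ee G a b = 1 ∨ ee G a b = -1 := by
      unfold ee; rw [if_neg hab]; split_ifs <;> simp
    rcases h3 with h3 | h3 <;> rw [h3]
    · simp only [mul_one]; ring
    · simp only [mul_neg, mul_one, neg_neg]; ring
  linarith

lemma hoeff_aux (c : Fin n → Fin n → ℝ) (P : Finset (Fin n × Fin n))
    (hP : ∀ p ∈ P, p.1 < p.2) :
    Ex (fun G : SimpleGraph (Fin n) => Real.exp (∑ p ∈ P, c p.1 p.2 * ee G p.1 p.2)) ≤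
      Real.exp ((∑ p ∈ P, c p.1 p.2 ^ 2) / 2) := by
  induction P using Finset.induction_on with
  | empty =>
    simp only [sum_empty, Real.exp_zero, zero_div]
    rw [Ex_const]
  | insert p P hp ih =>
    have hp1 : p.1 < p.2 := hP p (mem_insert_self _ _)
    have ih' := ih (fun p' hp' => hP p' (mem_insert_of_mem hp'))
    have h1 : Ex (fun G : SimpleGraph (Fin n) =>
        Real.exp (∑ p' ∈ insert p P, c p'.1 p'.2 * ee G p'.1 p'.2)) =
        Ex (fun G => Real.exp (∑ p' ∈ P, c p'.1 p'.2 * ee G p'.1 p'.2) *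
          Real.exp (c p.1 p.2 * ee G p.1 p.2)) := by
      apply Ex_congr
      intro G
      rw [sum_insert hp, add_comm, Real.exp_add]
    rw [h1, Ex_cosh p.1 p.2 _ ?_ hp1.ne]
    · rw [sum_insert hp, add_div, Real.exp_add]
      have h2 := Real.cosh_le_exp_half_sq (c p.1 p.2)
      have h3 : 0 ≤ Ex (fun G : SimpleGraph (Fin n) =>
        Real.exp (∑ p' ∈ P, c p'.1 p'.2 * ee G p'.1 p'.2)) :=
        Ex_nonneg fun G => (Real.exp_pos _).le
      exact mul_le_mul h2 ih' h3 (Real.exp_pos _).le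
    · intro G
      congr 1
      apply sum_congr rfl
      intro p' hp'
      rw [ee_tog, if_neg]
      intro h
      rw [Sym2.eq_iff] at h
      have hp'1 : p'.1 < p'.2 := hP p' (mem_insert_of_mem hp')
      rcases h with ⟨h1, h2⟩ | ⟨h1, h2⟩
      · apply hp
        have : p' = p := Prod.ext h1 h2
        rw [← this]; exact hp'
      · rw [h1, h2] at hp'1
        exact absurd hp1 (lt_asymm hp'1)

lemma sum_lt_eq (f : Fin n → Fin n → ℝ) :
    ∑ a, ∑ b, (if a < b then f a b else 0)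
      = ∑ p ∈ (univ : Finset (Fin n × Fin n)).filter (fun p => p.1 < p.2), f p.1 p.2 := by
  rw [sum_filter, ← univ_product_univ, sum_product]

/-- PK-HOEFF -/
theorem hoeff : S_Hoeff := by
  intro n c
  have h := hoeff_aux c ((univ : Finset (Fin n × Fin n)).filter (fun p => p.1 < p.2))
    (fun p hp => (mem_filter.mp hp).2)
  rw [sum_lt_eq (fun a b => c a b ^ 2)]
  refine le_trans (le_of_eq ?_) h
  apply Ex_congr
  intro G
  rw [sum_lt_eq (fun a b => c a b * ee G a b)]

lemma sum_split (x : Fin n → Fin n → ℝ) (hx : ∀ a, x a a = 0) :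
    ∑ a, ∑ b, x a b = ∑ a, ∑ b, (if a < b then x a b + x b a else 0) := by
  have h1 : ∑ a, ∑ b, x a b = ∑ a, ∑ b, ((if a < b then x a b else 0) +
      (if b < a then x a b else 0)) := by
    apply sum_congr rfl; intro a _
    apply sum_congr rfl; intro b _
    rcases lt_trichotomy a b with h | h | h
    · rw [if_pos h, if_neg (lt_asymm h), add_zero]
    · subst h; simp [hx]
    · rw [if_neg (lt_asymm h), if_pos h, zero_add]
  have h2 : ∑ a, ∑ b, (if a < b then x a b + x b a else 0) =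
      ∑ a, ∑ b, (if a < b then x a b else 0) + ∑ a, ∑ b, (if a < b then x b a else 0) := by
    rw [← sum_add_distrib]
    apply sum_congr rfl; intro a _
    rw [← sum_add_distrib]
    apply sum_congr rfl; intro b _
    by_cases h : a < b <;> simp [h]
  rw [h1, h2]
  simp only [sum_add_distrib]
  congr 1
  rw [sum_comm]

/-- sub-gaussian tail of a bilinear edge sum -/
lemma tail (h : S_Hoeff) (α : Fin n → Fin n → ℝ) (V T : ℝ) (hV : 0 < V)
    (hα : ∑ a, ∑ b, α a b ^ 2 ≤ V) (hT : 0 ≤ T) :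
    Pr (fun G : SimpleGraph (Fin n) => T ≤ ∑ a, ∑ b, α a b * ee G a b) ≤
      Real.exp (-(T ^ 2 / (4 * V))) := by
  set lam := T / (2 * V) with hlam
  have hlam0 : 0 ≤ lam := by positivity
  have h1 : ∀ G : SimpleGraph (Fin n), ∑ a, ∑ b, α a b * ee G a b
      = ∑ a, ∑ b, (if a < b then (α a b + α b a) * ee G a b else 0) := by
    intro G
    rw [sum_split (fun a b => α a b * ee G a b) (fun a => by simp [ee_self])]
    apply sum_congr rfl; intro a _
    apply sum_congr rfl; intro b _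
    by_cases hab : a < b
    · rw [if_pos hab, if_pos hab, ee_comm G b a]; ring
    · rw [if_neg hab, if_neg hab]
  have h2 : ∑ a, ∑ b, (if a < b then (α a b + α b a) ^ 2 else 0) ≤ 2 * V := by
    have e1 : ∑ a, ∑ b, (if a < b then (α a b + α b a) ^ 2 else 0) ≤
        ∑ a, ∑ b, (if a < b then 2 * α a b ^ 2 + 2 * α b a ^ 2 else 0) := by
      apply sum_le_sum; intro a _
      apply sum_le_sum; intro b _
      by_cases hab : a < b
      · rw [if_pos hab, if_pos hab]; nlinarith [sq_nonneg (α a b - α b a)]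
      · rw [if_neg hab, if_neg hab]
    have e2 : ∑ a, ∑ b, (if a < b then 2 * α a b ^ 2 + 2 * α b a ^ 2 else 0) =
        ∑ a, ∑ b, (if a = b then 0 else 2 * α a b ^ 2) := by
      rw [sum_split (fun a b => if a = b then 0 else 2 * α a b ^ 2) (fun a => by simp)]
      apply sum_congr rfl; intro a _
      apply sum_congr rfl; intro b _
      by_cases hab : a < b
      · rw [if_pos hab, if_pos hab, if_neg hab.ne, if_neg hab.ne']
      · rw [if_neg hab, if_neg hab]
    have e3 : ∑ a, ∑ b, (if a = b then 0 else 2 * α a b ^ 2) ≤ ∑ a, ∑ b, 2 * α a b ^ 2 := by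
      apply sum_le_sum; intro a _
      apply sum_le_sum; intro b _
      split_ifs
      · positivity
      · exact le_rfl
    have e4 : ∑ a, ∑ b, 2 * α a b ^ 2 = 2 * ∑ a, ∑ b, α a b ^ 2 := by
      rw [mul_sum]
      apply sum_congr rfl; intro a _
      rw [mul_sum]
    linarith
  have h3 := h n (fun a b => lam * (α a b + α b a))
  have h4 : Real.exp ((∑ a, ∑ b, if a < b then (lam * (α a b + α b a)) ^ 2 else 0) / 2) ≤
      Real.exp (lam ^ 2 * V) := by
    apply Real.exp_le_exp.mpr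
    have e1 : (∑ a, ∑ b, if a < b then (lam * (α a b + α b a)) ^ 2 else 0) =
        lam ^ 2 * ∑ a, ∑ b, (if a < b then (α a b + α b a) ^ 2 else 0) := by
      rw [mul_sum]
      apply sum_congr rfl; intro a _
      rw [mul_sum]
      apply sum_congr rfl; intro b _
      by_cases hab : a < b
      · rw [if_pos hab, if_pos hab]; ring
      · rw [if_neg hab, if_neg hab, mul_zero]
    rw [e1]
    nlinarith [sq_nonneg lam]
  have h5 : Pr (fun G : SimpleGraph (Fin n) => T ≤ ∑ a, ∑ b, α a b * ee G a b) ≤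
      Pr (fun G : SimpleGraph (Fin n) => Real.exp (lam * T) ≤
        Real.exp (∑ a, ∑ b, if a < b then lam * (α a b + α b a) * ee G a b else 0)) := by
    apply Pr_mono
    intro G hG
    apply Real.exp_le_exp.mpr
    rw [h1 G] at hG
    have e1 : (∑ a, ∑ b, if a < b then lam * (α a b + α b a) * ee G a b else 0) =
        lam * ∑ a, ∑ b, (if a < b then (α a b + α b a) * ee G a b else 0) := by
      rw [mul_sum]
      apply sum_congr rfl; intro a _
      rw [mul_sum]
      apply sum_congr rfl; intro b _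
      by_cases hab : a < b
      · rw [if_pos hab, if_pos hab]; ring
      · rw [if_neg hab, if_neg hab, mul_zero]
    rw [e1]
    exact mul_le_mul_of_nonneg_left hG hlam0
  have h6 := Pr_markov (n := n) (fun G : SimpleGraph (Fin n) =>
    Real.exp (∑ a, ∑ b, if a < b then lam * (α a b + α b a) * ee G a b else 0))
    (fun G => (Real.exp_pos _).le) (Real.exp (lam * T)) (Real.exp_pos _)
  refine h5.trans (h6.trans ?_)
  rw [div_le_iff₀ (Real.exp_pos _), ← Real.exp_add]
  refine h3.trans (h4.trans ?_)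
  apply Real.exp_le_exp.mpr
  have : lam ^ 2 * V = -(T ^ 2 / (4 * V)) + lam * T := by
    rw [hlam]; field_simp; ring
  exact this.le

/-- two-sided version -/
lemma tail_abs (h : S_Hoeff) (α : Fin n → Fin n → ℝ) (V T : ℝ) (hV : 0 < V)
    (hα : ∑ a, ∑ b, α a b ^ 2 ≤ V) (hT : 0 ≤ T) :
    Pr (fun G : SimpleGraph (Fin n) => T < |∑ a, ∑ b, α a b * ee G a b|) ≤
      2 * Real.exp (-(T ^ 2 / (4 * V))) := by
  have h1 := tail h α V T hV hα hT
  have h2 := tail h (fun a b => - α a b) V T hV (by simpa using hα) hT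
  have h3 : Pr (fun G : SimpleGraph (Fin n) => T < |∑ a, ∑ b, α a b * ee G a b|) ≤
      Pr (fun G : SimpleGraph (Fin n) => (T ≤ ∑ a, ∑ b, α a b * ee G a b) ∨
        (T ≤ ∑ a, ∑ b, - α a b * ee G a b)) := by
    apply Pr_mono
    intro G hG
    rcases lt_abs.mp hG with hG | hG
    · left; exact hG.le
    · right
      have : ∑ a, ∑ b, - α a b * ee G a b = - ∑ a, ∑ b, α a b * ee G a b := by
        rw [← sum_neg_distrib]
        apply sum_congr rfl; intro a _
        rw [← sum_neg_distrib]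
        apply sum_congr rfl; intro b _
        ring
      rw [this]; exact hG.le
  have h4 := Pr_or_le (n := n) (fun G => T ≤ ∑ a, ∑ b, α a b * ee G a b)
    (fun G => T ≤ ∑ a, ∑ b, - α a b * ee G a b)
  linarith

/-- the matrix of the pair of sets -/
lemma box_sum (A B : Finset (Fin n)) (f : Fin n → Fin n → ℝ) :
    ∑ a ∈ A, ∑ b ∈ B, f a b
      = ∑ a, ∑ b, (if a ∈ A ∧ b ∈ B then (1:ℝ) else 0) * f a b := by
  have h1 : ∀ a, ∑ b, (if a ∈ A ∧ b ∈ B then (1:ℝ) else 0) * f a b
      = if a ∈ A then ∑ b ∈ B, f a b else 0 := by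
    intro a
    by_cases ha : a ∈ A
    · rw [if_pos ha]
      simp only [ha, true_and, ite_mul, one_mul, zero_mul]
      rw [sum_ite_mem, univ_inter]
    · simp [ha]
  simp only [h1]
  rw [sum_ite_mem, univ_inter]

lemma box_sq (A B : Finset (Fin n)) :
    ∑ a, ∑ b, (if a ∈ A ∧ b ∈ B then (1:ℝ) else 0) ^ 2 = (A.card : ℝ) * B.card := by
  have := box_sum A B (fun _ _ => (1 : ℝ))
  simp only [sum_const, nsmul_eq_mul, mul_one] at this
  rw [this]
  apply sum_congr rfl; intro a _
  apply sum_congr rfl; intro b _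
  split_ifs <;> norm_num

lemma sum_nonempty (t : ℝ) : ∑ A ∈ (univ : Finset (Finset (Fin n))).filter Finset.Nonempty,
    t ^ A.card = (1 + t) ^ n - 1 := by
  have h1 := Fintype.sum_pow_mul_eq_add_pow (Fin n) t 1
  simp only [one_pow, mul_one, Fintype.card_fin] at h1
  rw [add_comm 1 t, ← h1]
  have h2 : ∑ s : Finset (Fin n), t ^ s.card = ∑ s ∈ univ.filter Finset.Nonempty, t ^ s.card +
      ∑ s ∈ univ.filter (fun s : Finset (Fin n) => ¬ s.Nonempty), t ^ s.card :=
    (sum_filter_add_sum_filter_not _ _ _).symm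
  have h3 : univ.filter (fun s : Finset (Fin n) => ¬ s.Nonempty) = {∅} := by
    ext s; simp
  rw [h2, h3, sum_singleton, card_empty, pow_zero]
  ring

/-- PK-PR -/
theorem pr (h : S_Hoeff) : S_PR := by
  intro K
  refine ⟨2 * √((K : ℝ) + 4), ?_, 2, ?_⟩
  · have : (1:ℝ) ≤ √((K : ℝ) + 4) := by
      rw [Real.one_le_sqrt]; have : (0:ℝ) ≤ K := Nat.cast_nonneg K; linarith
    linarith
  intro n hn
  have hn0 : (0:ℝ) < n := by exact_mod_cast (by omega : 0 < n)
  have hn2 : (2:ℝ) ≤ n := by exact_mod_cast hn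
  set C := 2 * √((K : ℝ) + 4) with hC
  have hC2 : C ^ 2 = 4 * ((K : ℝ) + 4) := by
    rw [hC, mul_pow, Real.sq_sqrt (by positivity)]; ring
  set t : ℝ := 1 / (n : ℝ) ^ (K + 4) with ht
  have ht0 : 0 < t := by positivity
  have hlog : 0 < Real.log n := Real.log_pos (by linarith)
  set NE := (univ : Finset (Finset (Fin n))).filter Finset.Nonempty with hNE
  have h1 : Pr (fun G : SimpleGraph (Fin n) => ¬ PRev C G) ≤
      Pr (fun G : SimpleGraph (Fin n) => ∃ AB ∈ NE ×ˢ NE,
        C * √((AB.1.card : ℝ) * AB.2.card * ((AB.1.card : ℝ) + AB.2.card) * Real.log n) <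
          |∑ a ∈ AB.1, ∑ b ∈ AB.2, ee G a b|) := by
    apply Pr_mono
    intro G hG
    unfold PRev at hG
    push Not at hG
    obtain ⟨A, B, hAB⟩ := hG
    refine ⟨(A, B), ?_, hAB⟩
    rw [mem_product, hNE]
    simp only [mem_filter, mem_univ, true_and]
    constructor
    · by_contra hA
      rw [not_nonempty_iff_eq_empty] at hA
      rw [hA] at hAB
      simp at hAB
    · by_contra hA
      rw [not_nonempty_iff_eq_empty] at hA
      rw [hA] at hAB
      simp at hAB
  have h2 : ∀ AB ∈ NE ×ˢ NE, Pr (fun G : SimpleGraph (Fin n) =>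
        C * √((AB.1.card : ℝ) * AB.2.card * ((AB.1.card : ℝ) + AB.2.card) * Real.log n) <
          |∑ a ∈ AB.1, ∑ b ∈ AB.2, ee G a b|) ≤ 2 * (t ^ AB.1.card * t ^ AB.2.card) := by
    rintro ⟨A, B⟩ hAB
    rw [mem_product, hNE] at hAB
    simp only [mem_filter, mem_univ, true_and] at hAB
    obtain ⟨hA, hB⟩ := hAB
    have hA' : (0:ℝ) < A.card := by exact_mod_cast hA.card_pos
    have hB' : (0:ℝ) < B.card := by exact_mod_cast hB.card_pos
    have h3 := tail_abs h (fun a b => if a ∈ A ∧ b ∈ B then (1:ℝ) else 0) ((A.card : ℝ) * B.card)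
      (C * √((A.card : ℝ) * B.card * ((A.card : ℝ) + B.card) * Real.log n)) (by positivity)
      (box_sq A B).le (by positivity)
    simp only [← box_sum] at h3
    refine h3.trans (le_of_eq ?_)
    congr 1
    rw [mul_pow, hC2, Real.sq_sqrt (by positivity), ht, ← pow_add]
    have e1 : 4 * ((K : ℝ) + 4) * ((A.card : ℝ) * B.card * ((A.card : ℝ) + B.card) * Real.log n) /
        (4 * ((A.card : ℝ) * B.card)) = ((K : ℝ) + 4) * ((A.card : ℝ) + B.card) * Real.log n := by
      field_simp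
    rw [e1]
    have e2 : ((K : ℝ) + 4) * ((A.card : ℝ) + B.card) * Real.log n =
        Real.log ((n : ℝ) ^ ((K + 4) * (A.card + B.card))) := by
      rw [Real.log_pow]; push_cast; ring
    rw [e2, Real.exp_neg, Real.exp_log (by positivity), one_div, inv_pow, ← pow_mul]
  have h3 : Pr (fun G : SimpleGraph (Fin n) => ¬ PRev C G) ≤
      ∑ AB ∈ NE ×ˢ NE, 2 * (t ^ AB.1.card * t ^ AB.2.card) :=
    h1.trans ((Pr_exists_le _ _).trans (sum_le_sum h2))
  have h4 : ∑ AB ∈ NE ×ˢ NE, 2 * (t ^ AB.1.card * t ^ AB.2.card) = 2 * ((1 + t) ^ n - 1) ^ 2 := by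
    rw [← mul_sum, sum_product]
    simp only [← mul_sum, ← sum_mul]
    rw [hNE, sum_nonempty]
    ring
  have hnt : (n : ℝ) * t ≤ 1 := by
    rw [ht, mul_one_div, div_le_one (by positivity)]
    calc (n : ℝ) = (n : ℝ) ^ 1 := (pow_one _).symm
      _ ≤ (n : ℝ) ^ (K + 4) := pow_le_pow_right₀ (by linarith) (by omega)
  have h5 : (1 + t) ^ n - 1 ≤ 2 * (n * t) := by
    have e1 : (1 + t) ^ n ≤ Real.exp (n * t) := by
      rw [Real.exp_nat_mul]
      exact pow_le_pow_left₀ (by positivity) (by linarith [Real.add_one_le_exp t]) n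
    have e2 := Real.abs_exp_sub_one_sub_id_le (x := n * t)
      (by rw [abs_of_nonneg (by positivity)]; exact hnt)
    have e3 := (abs_le.mp e2).2
    have e4 : (n * t) ^ 2 ≤ n * t := by nlinarith [mul_pos hn0 ht0]
    linarith
  have h6 : 0 ≤ (1 + t) ^ n - 1 := by
    have := one_le_pow₀ (a := 1 + t) (by linarith) (n := n)
    linarith
  have h7 : 2 * ((1 + t) ^ n - 1) ^ 2 ≤ 8 * (n * t) ^ 2 := by nlinarith
  have h8 : 8 * (n * t) ^ 2 ≤ 1 / (n : ℝ) ^ K := by
    have e1 : (n * t) ^ 2 = 1 / (n : ℝ) ^ (2 * K + 6) := by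
      rw [ht, mul_one_div, div_pow, one_div, ← pow_mul, div_eq_mul_inv]
      rw [show (K + 4) * 2 = (2 * K + 6) + 2 by ring, pow_add]
      field_simp
    rw [e1, mul_one_div, div_le_div_iff₀ (by positivity) (by positivity), one_mul,
      show 2 * K + 6 = K + (K + 6) by ring, pow_add]
    have e2 : (8 : ℝ) ≤ (n : ℝ) ^ (K + 6) := by
      calc (8:ℝ) = 2 ^ 3 := by norm_num
        _ ≤ (n : ℝ) ^ 3 := pow_le_pow_left₀ (by norm_num) hn2 3
        _ ≤ (n : ℝ) ^ (K + 6) := pow_le_pow_right₀ (by linarith) (by omega)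
    have e3 : (0:ℝ) < (n : ℝ) ^ K := by positivity
    nlinarith
  linarith

/-- `n exp (-b √n)` is small -/
lemma small {b ε : ℝ} (hb : 0 < b) (hε : 0 < ε) : ∃ n0 : ℕ, 1 ≤ n0 ∧ ∀ n : ℕ, n0 ≤ n →
    (n : ℝ) * Real.exp (-(b * √(n : ℝ))) ≤ ε := by
  obtain ⟨n0, hn0⟩ := exists_nat_ge ((6 / (b ^ 3 * ε)) ^ 2)
  refine ⟨max n0 1, le_max_right _ _, fun n hn => ?_⟩
  have hn1 : 1 ≤ n := le_trans (le_max_right _ _) hn
  have hn2 : n0 ≤ n := le_trans (le_max_left _ _) hn
  have hn' : (0:ℝ) < n := by exact_mod_cast (by omega : 0 < n)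
  have hs : 0 < √(n : ℝ) := Real.sqrt_pos.mpr hn'
  have h1 : 6 / (b ^ 3 * ε) ≤ √(n : ℝ) := by
    apply Real.le_sqrt_of_sq_le
    exact hn0.trans (by exact_mod_cast hn2)
  have h2 := Real.pow_div_factorial_le_exp (b * √(n : ℝ)) (by positivity) 3
  have h3 : ((Nat.factorial 3 : ℕ) : ℝ) = 6 := by norm_num [Nat.factorial]
  rw [h3] at h2
  rw [Real.exp_neg, ← div_eq_mul_inv, div_le_iff₀ (Real.exp_pos _)]
  have h4 : √(n : ℝ) ^ 2 = n := Real.sq_sqrt hn'.le
  rw [div_le_iff₀ (by positivity)] at h1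
  have h5 : (b * √(n : ℝ)) ^ 3 = b ^ 3 * √(n : ℝ) * n := by
    calc (b * √(n : ℝ)) ^ 3 = b ^ 3 * √(n : ℝ) * (√(n : ℝ) ^ 2) := by ring
      _ = _ := by rw [h4]
  rw [h5] at h2
  have h6 : (n : ℝ) ≤ ε * (b ^ 3 * √(n : ℝ) * n / 6) := by
    have : ε * (b ^ 3 * √(n : ℝ) * n / 6) = (√(n : ℝ) * (b ^ 3 * ε)) * n / 6 := by ring
    rw [this, le_div_iff₀ (by norm_num)]
    nlinarith
  calc (n : ℝ) ≤ ε * (b ^ 3 * √(n : ℝ) * n / 6) := h6
    _ ≤ ε * Real.exp (b * √(n : ℝ)) := mul_le_mul_of_nonneg_left h2 hε.le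

/-- PK-HE -/
theorem he (h : S_Hoeff) : S_HE := by
  intro ε hε
  obtain ⟨n0, hn1, h0⟩ := small (b := ε ^ 2 / 4) (ε := ε / 2) (by positivity) (by positivity)
  refine ⟨n0, fun n hn S hS => ?_⟩
  have hn' : (0:ℝ) < n := by exact_mod_cast (by omega : 0 < n)
  have hs : 0 < √(n : ℝ) := Real.sqrt_pos.mpr hn'
  have hS' : (S.card : ℝ) ≤ √(n : ℝ) := by rw [hS]; exact Real.nat_sqrt_le_real_sqrt
  have h1 : Pr (fun G : SimpleGraph (Fin n) => ∃ w, w ∉ S ∧ ε * √(n : ℝ) < |∑ b ∈ S, ee G w b|) ≤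
      Pr (fun G : SimpleGraph (Fin n) => ∃ w ∈ (univ : Finset (Fin n)),
        ε * √(n : ℝ) < |∑ b ∈ S, ee G w b|) := by
    apply Pr_mono
    rintro G ⟨w, -, hw⟩
    exact ⟨w, mem_univ _, hw⟩
  have h2 : ∀ w ∈ (univ : Finset (Fin n)), Pr (fun G : SimpleGraph (Fin n) =>
      ε * √(n : ℝ) < |∑ b ∈ S, ee G w b|) ≤ 2 * Real.exp (-(ε ^ 2 / 4 * √(n : ℝ))) := by
    intro w _
    have h3 := tail_abs h (fun a b => if a ∈ ({w} : Finset (Fin n)) ∧ b ∈ S then (1:ℝ) else 0)
      (√(n : ℝ)) (ε * √(n : ℝ)) hs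
      (by rw [box_sq]; simpa using hS') (by positivity)
    simp only [← box_sum, sum_singleton] at h3
    refine h3.trans (le_of_eq ?_)
    congr 3
    rw [mul_pow]
    field_simp
  refine (h1.trans ((Pr_exists_le _ _).trans (sum_le_sum h2))).trans ?_
  rw [sum_const, card_univ, Fintype.card_fin, nsmul_eq_mul]
  have := h0 n hn
  linarith

lemma choose_le {n r : ℕ} (hr : 0 < r) (hn : 0 < n) :
    (n.choose r : ℝ) ≤ Real.exp (r * (1 + Real.log ((n : ℝ) / r))) := by
  have hr' : (0:ℝ) < r := by exact_mod_cast hr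
  have hn' : (0:ℝ) < n := by exact_mod_cast hn
  have h1 : (n.choose r : ℝ) ≤ (n : ℝ) ^ r / (Nat.factorial r : ℕ) :=
    Nat.choose_le_pow_div r n
  have h2 := Real.pow_div_factorial_le_exp (r : ℝ) hr'.le r
  have h3 : Real.exp (r * (1 + Real.log ((n : ℝ) / r))) = Real.exp r * ((n : ℝ) / r) ^ r := by
    rw [mul_add, mul_one, Real.exp_add]
    congr 1
    rw [← Real.log_pow, Real.exp_log (by positivity)]
  rw [h3]
  have hf : (0:ℝ) < (Nat.factorial r : ℕ) := by exact_mod_cast Nat.factorial_pos r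
  calc (n.choose r : ℝ) ≤ (n : ℝ) ^ r / (Nat.factorial r : ℕ) := h1
    _ = ((r : ℝ) ^ r / (Nat.factorial r : ℕ)) * ((n : ℝ) / r) ^ r := by
        rw [div_pow]; field_simp
    _ ≤ _ := mul_le_mul_of_nonneg_right h2 (by positivity)

/-- PK-SE -/
theorem se (h : S_Hoeff) : S_SE := by
  intro c ε hc hε
  obtain ⟨n0, hn1, h0⟩ := small (b := ε * c) (ε := ε) (by positivity) hε
  refine ⟨n0, fun n hn => ?_⟩
  have hnpos : 0 < n := by omega
  have hn' : (0:ℝ) < n := by exact_mod_cast hnpos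
  have hs : 0 < √(n : ℝ) := Real.sqrt_pos.mpr hn'
  set F := (univ : Finset (Finset (Fin n))).filter (fun N => c * √(n : ℝ) ≤ N.card) with hF
  have hcard : ∀ N ∈ F, 0 < N.card := by
    intro N hN
    have h1 := (mem_filter.mp hN).2
    have h2 : (0:ℝ) < N.card := lt_of_lt_of_le (by positivity) h1
    exact_mod_cast h2
  have h1 : Pr (fun G : SimpleGraph (Fin n) => ∃ N : Finset (Fin n), c * √(n : ℝ) ≤ N.card ∧
      2 * (N.card : ℝ) * √((N.card : ℝ) * (1 + Real.log (n / N.card) + ε)) <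
        ∑ a ∈ N, ∑ b ∈ N, ee G a b) ≤ Pr (fun G : SimpleGraph (Fin n) => ∃ N ∈ F,
      2 * (N.card : ℝ) * √((N.card : ℝ) * (1 + Real.log (n / N.card) + ε)) <
        ∑ a ∈ N, ∑ b ∈ N, ee G a b) := by
    apply Pr_mono
    rintro G ⟨N, h1, h2⟩
    exact ⟨N, mem_filter.mpr ⟨mem_univ _, h1⟩, h2⟩
  have h2 : ∀ N ∈ F, Pr (fun G : SimpleGraph (Fin n) =>
      2 * (N.card : ℝ) * √((N.card : ℝ) * (1 + Real.log (n / N.card) + ε)) <
        ∑ a ∈ N, ∑ b ∈ N, ee G a b) ≤
      Real.exp (-(N.card * (1 + Real.log (n / N.card) + ε))) := by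
    intro N hN
    have hr : (0:ℝ) < N.card := by exact_mod_cast hcard N hN
    have hrn : (N.card : ℝ) ≤ n := by
      have := card_le_univ N
      rw [Fintype.card_fin] at this
      exact_mod_cast this
    have hlog : 0 ≤ Real.log (n / N.card) := Real.log_nonneg (by rw [le_div_iff₀ hr]; linarith)
    have h3 := tail h (fun a b => if a ∈ N ∧ b ∈ N then (1:ℝ) else 0)
      ((N.card : ℝ) * N.card) (2 * (N.card : ℝ) * √((N.card : ℝ) * (1 + Real.log (n / N.card) + ε)))
      (by positivity) (box_sq N N).le (by positivity)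
    simp only [← box_sum] at h3
    refine (Pr_mono fun G hG => hG.le).trans (h3.trans (le_of_eq ?_))
    congr 2
    rw [mul_pow, Real.sq_sqrt (by positivity)]
    field_simp
    ring
  have h3 : ∑ N ∈ F, Real.exp (-(N.card * (1 + Real.log (n / N.card) + ε))) ≤
      ∑ r ∈ (range (n + 1)).filter (fun r : ℕ => c * √(n : ℝ) ≤ r), Real.exp (-(ε * r)) := by
    have e1 : ∀ N ∈ F, N.card ∈ (range (n + 1)).filter (fun r : ℕ => c * √(n : ℝ) ≤ r) := by
      intro N hN
      refine mem_filter.mpr ⟨?_, (mem_filter.mp hN).2⟩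
      rw [mem_range]
      have := card_le_univ N
      rw [Fintype.card_fin] at this
      omega
    rw [← sum_fiberwise_of_maps_to e1]
    apply sum_le_sum
    intro r hr
    have hr1 : c * √(n : ℝ) ≤ r := (mem_filter.mp hr).2
    have hr0 : (0:ℝ) < r := lt_of_lt_of_le (by positivity) hr1
    have hr0' : 0 < r := by exact_mod_cast hr0
    have e2 : ∑ N ∈ F.filter (fun N => N.card = r),
        Real.exp (-(N.card * (1 + Real.log (n / N.card) + ε))) =
        ((F.filter (fun N => N.card = r)).card : ℝ) *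
          Real.exp (-(r * (1 + Real.log (n / r) + ε))) := by
      rw [← nsmul_eq_mul, ← sum_const]
      apply sum_congr rfl
      intro N hN
      rw [(mem_filter.mp hN).2]
    rw [e2]
    have e3 : ((F.filter (fun N => N.card = r)).card : ℝ) ≤ (n.choose r : ℝ) := by
      have : (F.filter (fun N => N.card = r)).card ≤ (powersetCard r (univ : Finset (Fin n))).card := by
        apply card_le_card
        intro N hN
        rw [mem_powersetCard]
        exact ⟨subset_univ _, (mem_filter.mp hN).2⟩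
      rw [card_powersetCard, card_univ, Fintype.card_fin] at this
      exact_mod_cast this
    have e4 := choose_le hr0' hnpos
    calc ((F.filter (fun N => N.card = r)).card : ℝ) *
          Real.exp (-(r * (1 + Real.log (n / r) + ε)))
        ≤ Real.exp (r * (1 + Real.log ((n : ℝ) / r))) *
          Real.exp (-(r * (1 + Real.log (n / r) + ε))) :=
          mul_le_mul_of_nonneg_right (e3.trans e4) (Real.exp_pos _).le
      _ = Real.exp (-(ε * r)) := by
          rw [← Real.exp_add]; congr 1; ring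
  have h4 : ∑ r ∈ (range (n + 1)).filter (fun r : ℕ => c * √(n : ℝ) ≤ r), Real.exp (-(ε * r)) ≤
      (n : ℝ) * Real.exp (-(ε * c * √(n : ℝ))) := by
    have e1 : ∀ r ∈ (range (n + 1)).filter (fun r : ℕ => c * √(n : ℝ) ≤ r),
        Real.exp (-(ε * r)) ≤ Real.exp (-(ε * c * √(n : ℝ))) := by
      intro r hr
      apply Real.exp_le_exp.mpr
      have := (mem_filter.mp hr).2
      nlinarith
    refine (sum_le_sum e1).trans ?_
    rw [sum_const, nsmul_eq_mul]
    apply mul_le_mul_of_nonneg_right _ (Real.exp_pos _).le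
    have e2 : (range (n + 1)).filter (fun r : ℕ => c * √(n : ℝ) ≤ r) ⊆ Icc 1 n := by
      intro r hr
      have h5 := mem_filter.mp hr
      have hr0 : (0:ℝ) < r := lt_of_lt_of_le (by positivity) h5.2
      have hr0' : 0 < r := by exact_mod_cast hr0
      have := mem_range.mp h5.1
      rw [mem_Icc]
      omega
    have := card_le_card e2
    rw [Nat.card_Icc] at this
    exact_mod_cast (by omega)
  exact (h1.trans ((Pr_exists_le _ _).trans (sum_le_sum h2))).trans (h3.trans (h4.trans (h0 n hn)))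

end

end Pool.Agent.W782.PK
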