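import Pool.Agent.W841.PK.Stm2

set_option autoImplicit false

/-!
The planted tail bound after one block.
-/

namespace Pool.Agent.W782.PK

open Finset W841.PK Filter
open scoped Classical

noncomputable section

section basic

variable {n : ℕ} (S : Finset (Fin n)) (ρ : Rule n) (G : SimpleGraph (Fin n))

lemma rr_anti {i t : ℕ} (h : i ≤ t) : rr S ρ t G ≤ rr S ρ i G :=
  card_le_card (Finset.sdiff_subset_sdiff (RR_anti S ρ G h) (Finset.Subset.refl _))

lemma lt_of_mem (hb : S_Basic) (hρ : IsRule ρ) {t : ℕ} {a : Fin n} (ha : a ∈ RR S ρ t G) :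
    t < n := by
  by_contra hcon
  push Not at hcon
  have h1 := (hb n S ρ n G hρ).1 le_rfl
  rw [Nat.sub_self, card_eq_zero] at h1
  have h2 := RR_anti S ρ G hcon ha
  rw [h1] at h2
  exact absurd h2 (notMem_empty _)

end basic

lemma rv_le (n : ℕ) {v : ℝ} (hv : 1 ≤ v) : (rv n v : ℝ) ≤ n / v := by
  unfold rv
  have h1 : ((min ⌊(n : ℝ) / v⌋₊ (n - Nat.sqrt n) : ℕ) : ℝ) ≤ (⌊(n : ℝ) / v⌋₊ : ℕ) := by
    exact_mod_cast min_le_left _ _
  exact h1.trans (Nat.floor_le (by positivity))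

lemma rv_ge (n : ℕ) {v : ℝ} (hv : 1 ≤ v) : (n : ℝ) / v - √(n : ℝ) - 1 ≤ rv n v := by
  unfold rv
  have hn : (0:ℝ) ≤ n := Nat.cast_nonneg n
  have hs := Real.sqrt_nonneg (n : ℝ)
  rcases min_choice ⌊(n : ℝ) / v⌋₊ (n - Nat.sqrt n) with h | h
  · rw [h]
    have := Nat.lt_floor_add_one ((n : ℝ) / v)
    linarith
  · rw [h, Nat.cast_sub (Nat.sqrt_le_self n)]
    have h1 : (Nat.sqrt n : ℝ) ≤ √(n : ℝ) := Real.nat_sqrt_le_real_sqrt
    have h2 : (n : ℝ) / v ≤ n := div_le_self hn hv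
    linarith

lemma rv_anti (n : ℕ) {v v' : ℝ} (hv : 1 ≤ v) (h : v ≤ v') : rv n v' ≤ rv n v := by
  unfold rv
  apply min_le_min_right
  apply Nat.floor_le_floor
  exact div_le_div_of_nonneg_left (Nat.cast_nonneg n) (by linarith) h

lemma find_q (a : ℕ → ℕ) (m r : ℕ) (hm : 0 < m) (h0 : r ≤ a 0) (h1 : a m ≤ r) :
    ∃ q < m, a (q + 1) ≤ r ∧ r ≤ a q := by
  have hex : ∃ q, q < m ∧ a (q + 1) ≤ r :=
    ⟨m - 1, by omega, by rw [Nat.sub_add_cancel hm]; exact h1⟩
  obtain ⟨h2, h3⟩ := Nat.find_spec hex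
  refine ⟨Nat.find hex, h2, h3, ?_⟩
  by_cases hq : Nat.find hex = 0
  · rw [hq]; exact h0
  · have h4 := Nat.find_min hex (m := Nat.find hex - 1) (by omega)
    push Not at h4
    have h5 := h4 (by omega)
    rw [Nat.sub_add_cancel (by omega)] at h5
    exact h5.le

lemma heat_zero (hg : S_Gauss) (f : ℝ → ℝ) (y : ℝ) : heat f 0 y = f y := by
  unfold heat
  simp only [Real.sqrt_zero, zero_mul, add_zero]
  rw [MeasureTheory.integral_const_mul, hg.2.2.2.2.2.2.2.2.1, mul_one]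

/-- the deterministic argument -/
lemma claim {n : ℕ} {S : Finset (Fin n)} {ρ : Rule n} {G : SimpleGraph (Fin n)}
    (hb : S_Basic) (hg : S_Gauss) (hρ : IsRule ρ)
    {v B δ ε' ε1 : ℝ} {m : ℕ} {u P : ℕ → ℝ} {H : ℕ → ℝ} {σ : ℝ} (hm : 0 < m)
    (hv : 1 ≤ v) (hδ : 0 < δ) (hu0 : u 0 = v)
    (humono : ∀ q ≤ m, 1 ≤ u q ∧ u q ≤ u m) (hε' : 0 < ε') (hε1 : 0 ≤ ε1)
    (hP : ∀ q < m, P (q + 1) - ε1 ≤ H (q + 1) - ε')
    (hsmall : ε1 * u m ≤ δ / 4) (hsmall' : ε' * (2 * u m) ≤ δ / 4) (hsm3 : ε' ≤ δ / 4)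
    (hn1 : 4 * u m ≤ √(n : ℝ)) (hn2 : 8 * u m / δ ≤ √(n : ℝ)) (hn3 : 8 / δ ≤ √(n : ℝ))
    (hn4 : 1 ≤ √(n : ℝ))
    (hFlow : ∀ q < m, ∀ t, rv n (u (q + 1)) ≤ rr S ρ t G → rr S ρ t G ≤ rv n v →
      (∀ i < t, rr S ρ i G ≤ rv n v → ww S ρ i G ∉ Trk S ρ i G B (rv n v)) →
      (H (q + 1) - ε') * √(n : ℝ) ≤
      ∑ a ∈ Trk S ρ t G B (rv n v),
        (Ph ((zz S ρ t G a - B) / sdv n σ (rv n (u (q + 1))) (rr S ρ t G)) -
          Ph ((2 * B - zz S ρ t G a - B) / sdv n σ (rv n (u (q + 1))) (rr S ρ t G))))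
    (hFew : ∀ t, (n : ℝ) / (2 * u m) ≤ (rr S ρ t G : ℝ) →
      (((NN S ρ t G).filter
        (fun a => ε' * √(n : ℝ) < |Xs S ρ t G a - Xt S ρ t G a|)).card : ℝ) ≤ ε' * n)
    (hT : ∀ q < m, ∀ t, rv n (u (q + 1)) ≤ rr S ρ t G → rr S ρ t G ≤ rv n (u q) →
        (((NN S ρ t G).filter (fun a => B + P (q + 1) * u q - δ ≤ zz S ρ t G a)).card : ℝ) ≤
          (1 / u (q + 1) - δ) * n) :
    ∀ t, rv n (u m) ≤ rr S ρ t G → rr S ρ t G ≤ rv n v →
      ww S ρ t G ∉ Trk S ρ t G B (rv n v) := by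
  have hum : 1 ≤ u m := (humono m le_rfl).1
  have hnpos : (0:ℝ) < n := by
    by_contra hcon
    push Not at hcon
    rw [Real.sqrt_eq_zero_of_nonpos hcon] at hn4
    linarith
  have hs : 0 < √(n : ℝ) := by linarith
  have hsq : √(n : ℝ) * √(n : ℝ) = n := Real.mul_self_sqrt hnpos.le
  intro t
  induction t using Nat.strong_induction_on with
  | _ t ih =>
    intro hr1 hr2 hmem
    -- the vertex
    have hwS : ww S ρ t G ∈ SS S ρ t G := (mem_filter.mp hmem).1
    have hwS' : ww S ρ t G ∈ S := (mem_inter.mp hwS).2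
    have hwR : ww S ρ t G ∈ RR S ρ t G := (mem_inter.mp hwS).1
    have htn : t < n := lt_of_mem S ρ G hb hρ hwR
    have hzB : B ≤ zz S ρ t G (ww S ρ t G) := (mem_filter.mp hmem).2 t le_rfl hr2
    obtain ⟨q, hq, hq1, hq2⟩ := find_q (fun q => rv n (u q)) m (rr S ρ t G) hm
      (by rw [hu0]; exact hr2) hr1
    have huq := humono q hq.le
    have huq1 := humono (q + 1) hq
    -- size of rr
    have hrr_low : (n : ℝ) / (2 * u m) ≤ rr S ρ t G := by
      have h1 : ((rv n (u m) : ℕ) : ℝ) ≤ rr S ρ t G := by exact_mod_cast hr1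
      have h2 := rv_ge n hum
      have h3 : √(n : ℝ) + 1 ≤ (n : ℝ) / (2 * u m) := by
        rw [le_div_iff₀ (by positivity)]
        nlinarith
      have h4 : (n : ℝ) / u m = (n : ℝ) / (2 * u m) + (n : ℝ) / (2 * u m) := by
        field_simp; norm_num
      linarith
    have hrr0 : (0:ℝ) < rr S ρ t G := lt_of_lt_of_le (by positivity) hrr_low
    have hnr : (n : ℝ) / rr S ρ t G ≤ 2 * u m := by
      rw [div_le_iff₀ hrr0]
      rw [div_le_iff₀ (by positivity)] at hrr_low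
      linarith
    -- number of tracked vertices
    have hss : (P (q + 1) - ε1) * √(n : ℝ) ≤ ss S ρ t G := by
      have h1 := hFlow q hq t hq1 hr2 (fun i hi hri => ih i hi
        (le_trans hr1 (rr_anti S ρ G hi.le)) hri)
      have h2 : ∑ a ∈ Trk S ρ t G B (rv n v),
        (Ph ((zz S ρ t G a - B) / sdv n σ (rv n (u (q + 1))) (rr S ρ t G)) -
          Ph ((2 * B - zz S ρ t G a - B) / sdv n σ (rv n (u (q + 1))) (rr S ρ t G))) ≤
          (Trk S ρ t G B (rv n v)).card := by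
        rw [← nsmul_one, ← sum_const]
        apply sum_le_sum
        intro a _
        have h3 := (hg.2.2.2.2.1 ((zz S ρ t G a - B) / sdv n σ (rv n (u (q + 1))) (rr S ρ t G))).2
        have h4 := (hg.2.2.2.2.1
          ((2 * B - zz S ρ t G a - B) / sdv n σ (rv n (u (q + 1))) (rr S ρ t G))).1
        linarith
      have h3 : ((Trk S ρ t G B (rv n v)).card : ℝ) ≤ ss S ρ t G := by
        have : (Trk S ρ t G B (rv n v)).card ≤ (SS S ρ t G).card := card_le_card (filter_subset _ _)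
        exact_mod_cast this
      calc (P (q + 1) - ε1) * √(n : ℝ) ≤ (H (q + 1) - ε') * √(n : ℝ) :=
            mul_le_mul_of_nonneg_right (hP q hq) hs.le
        _ ≤ _ := h1.trans (h2.trans h3)
    have hss0 : (0:ℝ) ≤ ss S ρ t G := Nat.cast_nonneg _
    -- the key inequality
    have hB := ((hb n S ρ t G hρ).2.2.2.1 htn hwS').2.2.2.2
    set κ : ℝ := √(n : ℝ) / rr S ρ t G with hκ
    have hκ0 : 0 < κ := by positivity
    have hκn : κ * √(n : ℝ) = n / rr S ρ t G := by rw [hκ, div_mul_eq_mul_div, hsq]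
    have hκsmall : κ ≤ δ / 4 := by
      have h1 : κ * √(n : ℝ) ≤ 2 * u m := by rw [hκn]; exact hnr
      rw [div_le_iff₀ hδ] at hn2
      nlinarith
    have hκss : (P (q + 1) - ε1) * u q ≤ κ * ss S ρ t G := by
      by_cases hneg : P (q + 1) - ε1 ≤ 0
      · have h1 : (P (q + 1) - ε1) * u q ≤ 0 := mul_nonpos_of_nonpos_of_nonneg hneg (by linarith)
        have h2 : 0 ≤ κ * ss S ρ t G := mul_nonneg hκ0.le hss0
        linarith
      · push Not at hneg
        have h1 : u q ≤ n / rr S ρ t G := by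
          have h2 : (rr S ρ t G : ℝ) ≤ n / u q :=
            le_trans (by exact_mod_cast hq2) (rv_le n huq.1)
          rw [le_div_iff₀ (by linarith)] at h2
          rw [le_div_iff₀ hrr0]
          linarith
        calc (P (q + 1) - ε1) * u q ≤ (P (q + 1) - ε1) * (n / rr S ρ t G) :=
              mul_le_mul_of_nonneg_left h1 hneg.le
          _ = κ * ((P (q + 1) - ε1) * √(n : ℝ)) := by rw [← hκn]; ring
          _ ≤ κ * ss S ρ t G := mul_le_mul_of_nonneg_left hss hκ0.le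
    have hgood : ∀ a ∈ NN S ρ t G, ¬ (ε' * √(n : ℝ) < |Xs S ρ t G a - Xt S ρ t G a|) →
        B + P (q + 1) * u q - δ ≤ zz S ρ t G a := by
      intro a ha hna
      push Not at hna
      have h1 := hB a ha
      have h2 : zz S ρ t G (ww S ρ t G) = κ * Xs S ρ t G (ww S ρ t G) + cc S ρ t G := rfl
      have h3 : zz S ρ t G a = κ * Xs S ρ t G a + cc S ρ t G := rfl
      rw [h2] at hzB
      rw [h3]
      have h4 : κ * (Xs S ρ t G (ww S ρ t G) + (ss S ρ t G : ℝ) - 1) ≤ κ * Xt S ρ t G a :=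
        mul_le_mul_of_nonneg_left h1 hκ0.le
      have h5 : Xt S ρ t G a - ε' * √(n : ℝ) ≤ Xs S ρ t G a := by
        have := (abs_le.mp hna).1
        linarith
      have h6 : κ * (Xt S ρ t G a - ε' * √(n : ℝ)) ≤ κ * Xs S ρ t G a :=
        mul_le_mul_of_nonneg_left h5 hκ0.le
      have h7 : κ * (ε' * √(n : ℝ)) ≤ δ / 4 := by
        calc κ * (ε' * √(n : ℝ)) = ε' * (n / rr S ρ t G) := by rw [← hκn]; ring
          _ ≤ ε' * (2 * u m) := mul_le_mul_of_nonneg_left hnr hε'.le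
          _ ≤ δ / 4 := hsmall'
      have h8 : ε1 * u q ≤ δ / 4 :=
        (mul_le_mul_of_nonneg_left huq.2 hε1).trans hsmall
      nlinarith
    -- counting
    have hcount : (rr S ρ t G : ℝ) - ε' * n ≤
        (((NN S ρ t G).filter (fun a => B + P (q + 1) * u q - δ ≤ zz S ρ t G a)).card : ℝ) := by
      have h1 := hFew t hrr_low
      have h2 : (NN S ρ t G).card ≤ ((NN S ρ t G).filter
          (fun a => B + P (q + 1) * u q - δ ≤ zz S ρ t G a)).card +
          ((NN S ρ t G).filter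
            (fun a => ε' * √(n : ℝ) < |Xs S ρ t G a - Xt S ρ t G a|)).card := by
        refine le_trans (card_le_card ?_) (card_union_le _ _)
        intro a ha
        rw [mem_union]
        by_cases hna : ε' * √(n : ℝ) < |Xs S ρ t G a - Xt S ρ t G a|
        · right; exact mem_filter.mpr ⟨ha, hna⟩
        · left; exact mem_filter.mpr ⟨ha, hgood a ha hna⟩
      have h3 : ((NN S ρ t G).card : ℝ) ≤ (((NN S ρ t G).filter
          (fun a => B + P (q + 1) * u q - δ ≤ zz S ρ t G a)).card : ℝ) +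
          (((NN S ρ t G).filter
            (fun a => ε' * √(n : ℝ) < |Xs S ρ t G a - Xt S ρ t G a|)).card : ℝ) := by
        exact_mod_cast h2
      have h4 : (rr S ρ t G : ℝ) = (NN S ρ t G).card := rfl
      linarith
    have hfin := hcount.trans (hT q hq t hq1 hq2)
    have h1 : ((rv n (u (q + 1)) : ℕ) : ℝ) ≤ rr S ρ t G := by exact_mod_cast hq1
    have h2 := rv_ge n huq1.1
    have h3 : (1 / u (q + 1) - δ) * n = (n : ℝ) / u (q + 1) - δ * n := by ring
    rw [h3] at hfin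
    have h4 : √(n : ℝ) + 1 ≤ δ / 4 * n := by
      rw [div_le_iff₀ hδ] at hn3
      nlinarith
    have h5 : ε' * n ≤ δ / 4 * n := mul_le_mul_of_nonneg_right hsm3 hnpos.le
    have h6 : 0 < δ * n := by positivity
    linarith

/-- PK-PSTEP -/
theorem pstep (hb : S_Basic) (hg : S_Gauss) (hh : S_HeatC) (hf : S_FlowS) (hw : S_Few) :
    S_PStep := by
  intro v g hv hgN hAS B δ m u P hδ hu0 hu hP hT y ε hε
  rcases Nat.eq_zero_or_pos m with hm | hm
  · subst hm
    rw [hu0]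
    simp only [sub_self]
    refine (hAS (max y B) ε hε).mono 0 ?_
    intro n _ S ρ G _ _ hG t ht
    rw [heat_zero hg]
    have h1 : refl B g (max y B) = g (max y B) := by
      unfold W841.PK.refl
      rw [abs_of_nonneg (by linarith [le_max_right y B])]
      congr 1; ring
    rw [h1]
    refine (hG t ht).trans ?_
    exact_mod_cast card_le_card (fun a ha => mem_filter.mpr
      ⟨(mem_filter.mp ha).1, (le_max_left _ _).trans (mem_filter.mp ha).2⟩)
  obtain ⟨hanti, h01, L, hL⟩ := hgN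
  have hgN : Nice g := ⟨hanti, h01, L, hL⟩
  have hL0 : 0 ≤ L := by
    have := (abs_nonneg _).trans (hL 0 1)
    simpa using this
  have humono' : ∀ k, k ≤ m → ∀ q ≤ k, u q ≤ u k := by
    intro k
    induction k with
    | zero => intro _ q hq; rw [Nat.le_zero.mp hq]
    | succ k ih =>
      intro hk q hq
      rcases Nat.le_succ_iff.mp hq with h | h
      · exact (ih (by omega) q h).trans (hu k (by omega)).le
      · rw [h]
  have hum : v ≤ u m := by rw [← hu0]; exact humono' m le_rfl 0 (by omega)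
  have humono : ∀ q ≤ m, 1 ≤ u q ∧ u q ≤ u m := fun q hq =>
    ⟨hv.trans (by rw [← hu0]; exact humono' q hq 0 (by omega)), humono' m le_rfl q hq⟩
  have hum1 : 1 ≤ u m := hv.trans hum
  have hvu : ∀ q < m, v ≤ u (q + 1) := fun q hq => by
    rw [← hu0]; exact humono' (q + 1) hq 0 (by omega)
  -- parameters
  set η : ℝ := ε / (4 * (L + 1)) with hη
  have hη0 : 0 < η := by positivity
  have hLη : L * η ≤ ε / 4 := by
    rw [hη, mul_div_assoc', div_le_div_iff₀ (by positivity) (by norm_num)]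
    nlinarith
  obtain ⟨Mz, hMz⟩ : ∃ Mz : ℝ, ∀ x ≤ Mz, Ph x ≤ ε / 4 := by
    have h1 := hg.2.2.2.2.2.2.1.eventually (gt_mem_nhds (show (0:ℝ) < ε / 4 by positivity))
    rw [eventually_atBot] at h1
    obtain ⟨Mz, h2⟩ := h1
    exact ⟨Mz, fun x hx => (h2 x hx).le⟩
  set σ : ℝ := min (min (ε / (8 * (L + 1))) (δ / (8 * (L + 1) * u m))) (η / (|Mz| + 1)) with hσ
  have hσ0 : 0 < σ := by
    rw [hσ]; refine lt_min (lt_min ?_ ?_) ?_ <;> positivity
  have hσ1 : L * σ ≤ ε / 8 := by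
    have h1 : σ ≤ ε / (8 * (L + 1)) := (min_le_left _ _).trans (min_le_left _ _)
    calc L * σ ≤ L * (ε / (8 * (L + 1))) := mul_le_mul_of_nonneg_left h1 hL0
      _ ≤ ε / 8 := by
        rw [mul_div_assoc', div_le_div_iff₀ (by positivity) (by norm_num)]
        nlinarith
  have hσ2 : L * σ * u m ≤ δ / 8 := by
    have h1 : σ ≤ δ / (8 * (L + 1) * u m) := (min_le_left _ _).trans (min_le_right _ _)
    calc L * σ * u m ≤ L * (δ / (8 * (L + 1) * u m)) * u m := by
          apply mul_le_mul_of_nonneg_right _ (by linarith)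
          exact mul_le_mul_of_nonneg_left h1 hL0
      _ = L * δ / (8 * (L + 1)) := by field_simp
      _ ≤ δ / 8 := by
        rw [div_le_div_iff₀ (by positivity) (by norm_num)]
        nlinarith
  have hσ3 : -η / σ ≤ Mz := by
    have h1 : σ ≤ η / (|Mz| + 1) := min_le_right _ _
    rw [le_div_iff₀ (by positivity)] at h1
    rw [div_le_iff₀ hσ0]
    have h2 := neg_abs_le Mz
    nlinarith [abs_nonneg Mz]
  set ε' : ℝ := min (ε / 4) (min (δ / (8 * u m)) (δ / 4)) with hε'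
  have hε'0 : 0 < ε' := by rw [hε']; refine lt_min ?_ (lt_min ?_ ?_) <;> positivity
  have hε'1 : ε' ≤ ε / 4 := min_le_left _ _
  have hε'2 : ε' * u m ≤ δ / 8 := by
    have h1 : ε' ≤ δ / (8 * u m) := (min_le_right _ _).trans (min_le_left _ _)
    rw [le_div_iff₀ (by positivity)] at h1
    linarith
  have hε'3 : ε' ≤ δ / 4 := (min_le_right _ _).trans (min_le_right _ _)
  -- continuity in the variance
  have hcont : ∀ θ Y Y' : ℝ, 0 ≤ θ → heat (refl B g) θ Y - L * (|Y' - Y| + σ) ≤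
      heat (refl B g) (σ ^ 2 + θ) Y' := by
    intro θ Y Y' hθ
    have h1 := (hh g L hanti h01 hL).2.2.2.2.1 B (σ ^ 2 + θ) θ Y' Y (by positivity) hθ
    have h2 : |√(σ ^ 2 + θ) - √θ| ≤ σ := by
      rw [abs_of_nonneg (by
        have := Real.sqrt_le_sqrt (show θ ≤ σ ^ 2 + θ by nlinarith [sq_nonneg σ])
        linarith)]
      have h3 : √(σ ^ 2 + θ) ≤ σ + √θ := by
        rw [Real.sqrt_le_left (by positivity)]
        have := Real.sq_sqrt hθ
        nlinarith [Real.sqrt_nonneg θ]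
      linarith
    have h3 : L * (|Y' - Y| + |√(σ ^ 2 + θ) - √θ|) ≤ L * (|Y' - Y| + σ) :=
      mul_le_mul_of_nonneg_left (by linarith) hL0
    have h4 := (abs_le.mp (h1.trans h3)).1
    linarith
  set Y : ℝ := max y B with hY
  have hYB : B ≤ Y := le_max_right _ _
  have W1 := Whp.all m (fun q hq => hf v g hv hgN hAS (u (q + 1)) B B σ ε' (hvu q hq) le_rfl hσ0 hε'0)
  have W2 := hf v g hv hgN hAS (u m) B (Y + η) σ ε' hum (by linarith) hσ0 hε'0
  have W3 := hw (2 * u m) ε' (by linarith) hε'0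
  have W4 := Whp.all m hT
  obtain ⟨N0, hN0⟩ := exists_nat_ge ((max (max (4 * u m) (8 * u m / δ)) (max (8 / δ) 1)) ^ 2)
  refine (((W1.and W2).and W3).and W4).mono N0 ?_
  rintro n hn S ρ G hS hρ ⟨⟨⟨G1, G2⟩, G3⟩, G4⟩ t ht
  have hsn : max (max (4 * u m) (8 * u m / δ)) (max (8 / δ) 1) ≤ √(n : ℝ) := by
    apply Real.le_sqrt_of_sq_le
    exact hN0.trans (by exact_mod_cast hn)
  have hn1 : 4 * u m ≤ √(n : ℝ) := ((le_max_left _ _).trans (le_max_left _ _)).trans hsn
  have hn2 : 8 * u m / δ ≤ √(n : ℝ) := ((le_max_right _ _).trans (le_max_left _ _)).trans hsn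
  have hn3 : 8 / δ ≤ √(n : ℝ) := ((le_max_left _ _).trans (le_max_right _ _)).trans hsn
  have hn4 : 1 ≤ √(n : ℝ) := ((le_max_right _ _).trans (le_max_right _ _)).trans hsn
  have hs : 0 < √(n : ℝ) := by linarith
  have hclaim := claim (S := S) (ρ := ρ) (G := G) hb hg hρ (B := B) (δ := δ) (ε' := ε')
    (ε1 := L * σ + ε') (m := m) (u := u) (P := P)
    (H := fun q => heat (refl B g) (σ ^ 2 + (u q - v)) B) (σ := σ) hm hv hδ hu0 humono hε'0
    (by positivity)
    (by
      intro q hq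
      have h1 := hP q hq
      have h2 := hcont (u (q + 1) - v) B B (by linarith [hvu q hq])
      rw [sub_self, abs_zero, zero_add] at h2
      linarith)
    (by nlinarith) (by nlinarith) hε'3 hn1 hn2 hn3 hn4
    (fun q hq t h1 h2 h3 => G1 q hq t h1 h2 h3)
    (fun t ht => G3 t ht) (fun q hq t h1 h2 => G4 q hq t h1 h2)
  have hrv : rv n (u m) ≤ rv n v := rv_anti n hv hum
  have h1 := G2 t (by rw [ht]) (by rw [ht]; exact hrv)
    (fun i hi hri => hclaim i (by rw [← ht]; exact rr_anti S ρ G hi.le) hri)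
  have hsd : sdv n σ (rv n (u m)) (rr S ρ t G) = σ := by
    unfold sdv
    rw [ht, sub_self, add_zero, Real.sqrt_sq hσ0.le]
  rw [hsd] at h1
  have h2 : ∑ a ∈ Trk S ρ t G B (rv n v), (Ph ((zz S ρ t G a - (Y + η)) / σ) -
      Ph ((2 * B - zz S ρ t G a - (Y + η)) / σ)) ≤
      ∑ a ∈ SS S ρ t G, ((if Y ≤ zz S ρ t G a then (1:ℝ) else 0) + ε / 4) := by
    have e1 : ∑ a ∈ Trk S ρ t G B (rv n v), (Ph ((zz S ρ t G a - (Y + η)) / σ) -
      Ph ((2 * B - zz S ρ t G a - (Y + η)) / σ)) ≤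
      ∑ a ∈ Trk S ρ t G B (rv n v), ((if Y ≤ zz S ρ t G a then (1:ℝ) else 0) + ε / 4) := by
      apply sum_le_sum
      intro a _
      have h3 := (hg.2.2.2.2.1 ((2 * B - zz S ρ t G a - (Y + η)) / σ)).1
      split_ifs with hz
      · have h4 := (hg.2.2.2.2.1 ((zz S ρ t G a - (Y + η)) / σ)).2
        linarith
      · push Not at hz
        have h4 : Ph ((zz S ρ t G a - (Y + η)) / σ) ≤ ε / 4 := by
          apply hMz
          refine le_trans ?_ hσ3
          exact div_le_div_of_nonneg_right (by linarith) hσ0.le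
        linarith
    refine e1.trans (sum_le_sum_of_subset_of_nonneg (filter_subset _ _) ?_)
    intro a _ _
    have : 0 < ε / 4 := by positivity
    split_ifs <;> linarith
  rw [sum_add_distrib, sum_const, nsmul_eq_mul, ← sum_filter, sum_const, nsmul_eq_mul, mul_one]
    at h2
  have hSSc : ((SS S ρ t G).card : ℝ) ≤ √(n : ℝ) := by
    have h3 : (SS S ρ t G).card ≤ S.card := card_le_card inter_subset_right
    have h4 : (S.card : ℝ) ≤ √(n : ℝ) := by rw [hS]; exact Real.nat_sqrt_le_real_sqrt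
    exact le_trans (by exact_mod_cast h3) h4
  have h5 : (((SS S ρ t G).filter (fun a => Y ≤ zz S ρ t G a)).card : ℝ) ≤
      (((SS S ρ t G).filter (fun a => y ≤ zz S ρ t G a)).card : ℝ) := by
    exact_mod_cast card_le_card (fun a ha => mem_filter.mpr
      ⟨(mem_filter.mp ha).1, (le_max_left _ _).trans (mem_filter.mp ha).2⟩)
  have h6 := hcont (u m - v) Y (Y + η) (by linarith)
  rw [add_sub_cancel_left, abs_of_pos hη0] at h6
  have h7 : (SS S ρ t G).card * (ε / 4) ≤ √(n : ℝ) * (ε / 4) :=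
    mul_le_mul_of_nonneg_right hSSc (by positivity)
  have h8 : (heat (refl B g) (u m - v) Y - ε) * √(n : ℝ) ≤
      (heat (refl B g) (σ ^ 2 + (u m - v)) (Y + η) - ε') * √(n : ℝ) - √(n : ℝ) * (ε / 4) := by
    have : heat (refl B g) (u m - v) Y - ε ≤
        heat (refl B g) (σ ^ 2 + (u m - v)) (Y + η) - ε' - ε / 4 := by nlinarith
    nlinarith
  show (heat (refl B g) (u m - v) (max y B) - ε) * √(n : ℝ) ≤ _
  linarith

end

end Pool.Agent.W782.PK
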