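import Pool.Agent.W841.PK.Stm2

set_option autoImplicit false

/-!
Starting sums, the assembly of `S_DY`, and the removed planted vertices.
-/

namespace Pool.Agent.W782.PK

open Finset W841.PK Filter
open scoped Classical

noncomputable section

/-- PK-STARTN -/
theorem startn (hn : S_NetUp) : S_StartN := by
  intro v F hv hF hAN y s ε hs hε
  obtain ⟨M, c, p, c0, hc, hc0, hsum, hup, hnet⟩ := hn F hF y s (ε / 2) hs (by linarith)
  refine (Whp.all M (fun i _ => hAN (p i) (ε / 8) (by linarith))).mono 0 ?_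
  intro n _ S ρ G _ _ hG t ht
  have hNN : ((NN S ρ t G).card : ℝ) ≤ n := by
    have := card_le_univ (NN S ρ t G)
    rw [Fintype.card_fin] at this
    exact_mod_cast this
  have hn0 : (0:ℝ) ≤ n := Nat.cast_nonneg n
  calc ∑ a ∈ NN S ρ t G, Ph ((zz S ρ t G a - y) / s)
      ≤ ∑ a ∈ NN S ρ t G, (c0 + ∑ i ∈ range M, (if p i ≤ zz S ρ t G a then c i else 0)) :=
        sum_le_sum fun a _ => hup _
    _ = c0 * (NN S ρ t G).card + ∑ i ∈ range M, c i *
          (((NN S ρ t G).filter (fun a => p i ≤ zz S ρ t G a)).card : ℝ) := by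
        rw [sum_add_distrib, sum_const, nsmul_eq_mul, mul_comm, sum_comm]
        congr 1
        apply sum_congr rfl
        intro i _
        rw [← sum_filter, sum_const, nsmul_eq_mul, mul_comm]
    _ ≤ c0 * n + ∑ i ∈ range M, c i * ((F (p i) + ε / 8) * n) := by
        apply add_le_add (mul_le_mul_of_nonneg_left hNN hc0)
        apply sum_le_sum
        intro i hi
        exact mul_le_mul_of_nonneg_left (hG i (mem_range.mp hi) t ht) (hc i (mem_range.mp hi))
    _ = (c0 + ∑ i ∈ range M, c i * F (p i)) * n + (∑ i ∈ range M, c i) * (ε / 8 * n) := by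
        rw [add_mul, sum_mul, sum_mul, add_assoc, ← sum_add_distrib]
        congr 1
        apply sum_congr rfl; intro i _; ring
    _ ≤ (heat F (s ^ 2) y + ε / 2) * n + 2 * (ε / 8 * n) := by
        apply add_le_add (mul_le_mul_of_nonneg_right hnet hn0)
        apply mul_le_mul_of_nonneg_right _ (by positivity)
        linarith
    _ ≤ (heat F (s ^ 2) y + ε) * n := by nlinarith

/-- PK-STARTS -/
theorem starts (hn : S_NetLow) : S_StartS := by
  intro v g hv hg hAS B y s ε hBy hs hε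
  obtain ⟨M, c, p, hc, hsum, hlow, hnet⟩ := hn g hg B y s (ε / 2) hBy hs (by linarith)
  refine (Whp.all M (fun i _ => hAS (p i) (ε / 8) (by linarith))).mono 0 ?_
  intro n _ S ρ G _ _ hG t ht
  have hn0 : (0:ℝ) ≤ √(n : ℝ) := Real.sqrt_nonneg _
  calc (heat (refl B g) (s ^ 2) y - ε) * √(n : ℝ)
      ≤ (heat (refl B g) (s ^ 2) y - ε / 2) * √(n : ℝ) - 2 * (ε / 8 * √(n : ℝ)) := by nlinarith
    _ ≤ (∑ i ∈ range M, c i * g (p i)) * √(n : ℝ) - (∑ i ∈ range M, c i) * (ε / 8 * √(n : ℝ)) := by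
        apply sub_le_sub (mul_le_mul_of_nonneg_right hnet hn0)
        exact mul_le_mul_of_nonneg_right hsum (by positivity)
    _ = ∑ i ∈ range M, c i * ((g (p i) - ε / 8) * √(n : ℝ)) := by
        rw [sum_mul, sum_mul, ← sum_sub_distrib]
        apply sum_congr rfl; intro i _; ring
    _ ≤ ∑ i ∈ range M, c i *
          (((SS S ρ t G).filter (fun a => p i ≤ zz S ρ t G a)).card : ℝ) := by
        apply sum_le_sum
        intro i hi
        exact mul_le_mul_of_nonneg_left (hG i (mem_range.mp hi) t ht) (hc i (mem_range.mp hi)).1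
    _ = ∑ a ∈ (SS S ρ t G).filter (fun a => B ≤ zz S ρ t G a),
          ∑ i ∈ range M, (if p i ≤ zz S ρ t G a then c i else 0) := by
        rw [sum_comm]
        apply sum_congr rfl
        intro i hi
        have hpi := (hc i (mem_range.mp hi)).2
        rw [← sum_filter, sum_const, nsmul_eq_mul, mul_comm, filter_filter]
        congr 3
        ext a
        simp only [mem_filter]
        constructor
        · rintro ⟨h1, h2⟩
          exact ⟨h1, hpi.trans h2, h2⟩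
        · rintro ⟨h1, -, h2⟩
          exact ⟨h1, h2⟩
    _ ≤ ∑ a ∈ (SS S ρ t G).filter (fun a => B ≤ zz S ρ t G a),
        (Ph ((zz S ρ t G a - y) / s) - Ph ((2 * B - zz S ρ t G a - y) / s)) := by
        apply sum_le_sum
        intro a ha
        exact hlow _ (mem_filter.mp ha).2

lemma uu_nonneg (b : Bool) (n : ℕ) : 0 ≤ uu b n := by
  unfold uu; split_ifs
  · exact Real.sqrt_nonneg _
  · exact Nat.cast_nonneg n

/-- PK-DY -/
theorem dy (hid : S_DYid) (h2 : S_T2) (h3 : S_T3) (h4 : S_T4) : S_DY := by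
  intro V0 C hV hC
  obtain ⟨K2, n2, h2⟩ := h2 V0 C hV hC
  obtain ⟨K3, n3, h3⟩ := h3 V0 C hV hC
  obtain ⟨K4, n4, h4⟩ := h4 V0 C hV hC
  refine ⟨2 * V0 * (|K2| + |K3| + 2 * |K4|), max (max n2 n3) (max n4 1), ?_⟩
  intro n hn S ρ t G hS hρ hPR hAct b γ g hγ hg hg0
  have hn2 : n2 ≤ n := le_trans (le_trans (le_max_left _ _) (le_max_left _ _)) hn
  have hn3 : n3 ≤ n := le_trans (le_trans (le_max_right _ _) (le_max_left _ _)) hn
  have hn4 : n4 ≤ n := le_trans (le_trans (le_max_left _ _) (le_max_right _ _)) hn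
  have hn1 : 1 ≤ n := le_trans (le_trans (le_max_right _ _) (le_max_right _ _)) hn
  have hnpos : (0:ℝ) < n := by exact_mod_cast (by omega : 0 < n)
  have hr : (0:ℝ) < rr S ρ t G := lt_of_lt_of_le (by positivity) hAct.2
  have hr1 : 1 ≤ rr S ρ t G := by exact_mod_cast (by exact_mod_cast hr : 0 < rr S ρ t G)
  have e2 := h2 n hn2 S ρ t G hS hρ hPR hAct b γ g hγ hg hg0
  have e3 := h3 n hn3 S ρ t G hS hρ hPR hAct b γ g hγ hg hg0
  obtain ⟨e4, e5, e6⟩ := h4 n hn4 S ρ t G hS hρ hPR hAct b γ g hγ hg hg0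
  have eid := hid n S ρ t G g hAct.1 hr1
  have hBd : 0 ≤ Bd S ρ t G b γ := by
    unfold Bd
    have := uu_nonneg b n
    positivity
  have f2 : |T2g S ρ t G g - (Xt S ρ t G (ww S ρ t G) - Xb S ρ t G) / 2 *
      ∑ a ∈ (RR S ρ t G).erase (ww S ρ t G), g a| ≤ |K2| * Bd S ρ t G b γ :=
    e2.trans (mul_le_mul_of_nonneg_right (le_abs_self _) hBd)
  have f3 : |T3g S ρ t G g| ≤ |K3| * Bd S ρ t G b γ :=
    e3.trans (mul_le_mul_of_nonneg_right (le_abs_self _) hBd)
  have f4 : |T4g S ρ t G g| ≤ |K4| * Bd S ρ t G b γ :=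
    e4.trans (mul_le_mul_of_nonneg_right (le_abs_self _) hBd)
  have f5 : |∑ a ∈ (NN S ρ t G).erase (ww S ρ t G), g a * ee G a (ww S ρ t G)| ≤
      |K4| * Bd S ρ t G b γ :=
    e5.trans (mul_le_mul_of_nonneg_right (le_abs_self _) hBd)
  have f6 : |∑ a ∈ (RR S ρ t G).erase (ww S ρ t G), g a * (Xs S ρ t G a - Xn S ρ t G a)| ≤
      |K4| * Bd S ρ t G b γ :=
    e6.trans (mul_le_mul_of_nonneg_right (le_abs_self _) hBd)
  have key : |∑ w2 ∈ good2 S ρ t G, Dd S ρ t G g w2 - (rr S ρ t G : ℝ) / 2 * Yv S ρ t G g| ≤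
      (|K2| + |K3| + 2 * |K4|) * Bd S ρ t G b γ := by
    rw [eid]
    rw [abs_le] at f2 f3 f4 f5 f6 ⊢
    constructor <;> linarith [f2.1, f2.2, f3.1, f3.2, f4.1, f4.2, f5.1, f5.2, f6.1, f6.2]
  have e7 : 2 / (rr S ρ t G : ℝ) * ∑ w2 ∈ ((NN S ρ t G).erase (ww S ρ t G)).filter
        (fun w2 => |qq S ρ t G w2| ≤ ((RR S ρ t G).card : ℝ) / 4), Dd S ρ t G g w2
      - Yv S ρ t G g = 2 / (rr S ρ t G : ℝ) *
      (∑ w2 ∈ good2 S ρ t G, Dd S ρ t G g w2 - (rr S ρ t G : ℝ) / 2 * Yv S ρ t G g) := by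
    show 2 / (rr S ρ t G : ℝ) * (∑ w2 ∈ good2 S ρ t G, Dd S ρ t G g w2) - Yv S ρ t G g = _
    field_simp
  rw [e7, abs_mul, abs_of_pos (by positivity)]
  have e8 : 2 / (rr S ρ t G : ℝ) ≤ 2 * V0 / n := by
    rw [div_le_div_iff₀ hr hnpos]
    have := hAct.2
    rw [div_le_iff₀ (by linarith)] at this
    linarith
  have e9 : (n : ℝ) ^ ((7 : ℝ) / 16) = n * (n : ℝ) ^ (-(9 / 16) : ℝ) := by
    nth_rewrite 2 [← Real.rpow_one (n : ℝ)]
    rw [← Real.rpow_add hnpos]; norm_num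
  calc 2 / (rr S ρ t G : ℝ) *
        |∑ w2 ∈ good2 S ρ t G, Dd S ρ t G g w2 - (rr S ρ t G : ℝ) / 2 * Yv S ρ t G g|
      ≤ 2 * V0 / n * ((|K2| + |K3| + 2 * |K4|) * Bd S ρ t G b γ) :=
        mul_le_mul e8 key (abs_nonneg _) (by positivity)
    _ = _ := by
        unfold Bd
        rw [e9]
        field_simp

/-- the discrepancy event holds with high probability -/
lemma whp_PRev (hp : S_PR) : ∃ C : ℝ, 1 ≤ C ∧ Whp (fun _ _ _ G => PRev C G) := by
  obtain ⟨C, hC, n0, h⟩ := hp 1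
  refine ⟨C, hC, ?_⟩
  intro ε hε
  obtain ⟨n1, hn1⟩ := exists_nat_gt (1 / ε)
  refine ⟨max n0 (max n1 1), fun n hn S ρ _ _ => ?_⟩
  have h1 := h n (le_trans (le_max_left _ _) hn)
  refine h1.trans ?_
  have h2 : n1 ≤ n := le_trans (le_trans (le_max_left _ _) (le_max_right _ _)) hn
  have h3 : 1 ≤ n := le_trans (le_trans (le_max_right _ _) (le_max_right _ _)) hn
  have h4 : (0:ℝ) < n := by exact_mod_cast (by omega : 0 < n)
  have h5 : 1 / ε < n := lt_of_lt_of_le hn1 (by exact_mod_cast h2)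
  rw [pow_one, div_le_iff₀ h4]
  rw [div_lt_iff₀ hε] at h5
  linarith

/-- `log n` is small compared with `√n` -/
lemma log_small (c : ℝ) (hc : 0 < c) : ∃ n0 : ℕ, ∀ n : ℕ, n0 ≤ n → Real.log n ≤ c * √(n : ℝ) := by
  have h := (isLittleO_log_rpow_atTop (r := 1 / 2) (by norm_num)).def hc
  have h2 := tendsto_natCast_atTop_atTop.eventually h
  rw [eventually_atTop] at h2
  obtain ⟨n0, h0⟩ := h2
  refine ⟨n0, fun n hn => ?_⟩
  have h3 := h0 n hn
  rw [Real.norm_eq_abs, Real.norm_eq_abs, ← Real.sqrt_eq_rpow, abs_of_nonneg (Real.sqrt_nonneg _)]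
    at h3
  exact (le_abs_self _).trans h3

/-- PK-FEW -/
theorem few (hp : S_PR) (hc : S_PRC) : S_Few := by
  intro V0 ε hV hε
  obtain ⟨C, hC, hW⟩ := whp_PRev hp
  obtain ⟨n0, h0⟩ := log_small (ε ^ 2 / (64 * C ^ 2)) (by positivity)
  obtain ⟨n1, hn1⟩ := exists_nat_ge ((1 / ε) ^ 2)
  refine hW.mono (max n0 (max n1 2)) ?_
  intro n hn S ρ G hS hρ hPR t _
  have hnn0 : n0 ≤ n := le_trans (le_max_left _ _) hn
  have hnn1 : n1 ≤ n := le_trans (le_trans (le_max_left _ _) (le_max_right _ _)) hn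
  have hnn2 : 2 ≤ n := le_trans (le_trans (le_max_right _ _) (le_max_right _ _)) hn
  have hnpos : (0:ℝ) < n := by exact_mod_cast (by omega : 0 < n)
  have hs : 0 < √(n : ℝ) := Real.sqrt_pos.mpr hnpos
  have hsq : √(n : ℝ) ^ 2 = n := Real.sq_sqrt hnpos.le
  have hlog : 0 < Real.log n := Real.log_pos (by exact_mod_cast (by omega : 1 < n))
  set A := (NN S ρ t G).filter (fun a => ε * √(n : ℝ) < |Xs S ρ t G a - Xt S ρ t G a|) with hA
  set T := S \ RR S ρ t G with hT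
  by_contra hcon
  push Not at hcon
  have h1 : 1 / ε ≤ √(n : ℝ) := by
    apply Real.le_sqrt_of_sq_le
    exact hn1.trans (by exact_mod_cast hnn1)
  have h2 : √(n : ℝ) ≤ ε * n := by
    rw [div_le_iff₀ hε] at h1
    calc √(n : ℝ) = √(n : ℝ) * 1 := (mul_one _).symm
      _ ≤ √(n : ℝ) * (√(n : ℝ) * ε) := mul_le_mul_of_nonneg_left h1 hs.le
      _ = ε * √(n : ℝ) ^ 2 := by ring
      _ = ε * n := by rw [hsq]
  have hTc : (T.card : ℝ) ≤ √(n : ℝ) := by
    have h3 : T.card ≤ S.card := card_le_card sdiff_subset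
    have h4 : (S.card : ℝ) ≤ √(n : ℝ) := by rw [hS]; exact Real.nat_sqrt_le_real_sqrt
    exact le_trans (by exact_mod_cast h3) h4
  have hAc : √(n : ℝ) ≤ A.card := h2.trans hcon.le
  have hA0 : (0:ℝ) < A.card := hs.trans_le hAc
  have h3 : ∀ a ∈ A, Xs S ρ t G a - Xt S ρ t G a = ∑ b ∈ T, 1 * ee G a b := by
    intro a ha
    have ha1 : a ∈ NN S ρ t G := (mem_filter.mp ha).1
    have ha2 : a ∉ S := (Finset.mem_sdiff.mp ha1).2
    unfold Xs Xt Xn
    rw [if_neg ha2, ← SS_union_NN S ρ t G, sum_union (disjoint_SS_NN S ρ t G)]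
    have h4 : ∑ b ∈ S, ee G a b = ∑ b ∈ SS S ρ t G, ee G a b + ∑ b ∈ T, ee G a b := by
      have h5 : S = SS S ρ t G ∪ T := by
        ext x; simp only [SS, hT, mem_union, mem_inter, Finset.mem_sdiff]; tauto
      have h6 : Disjoint (SS S ρ t G) T := by
        rw [disjoint_left]; intro x hx hx'
        simp only [SS, hT, mem_inter, Finset.mem_sdiff] at hx hx'
        exact hx'.2 hx.1
      conv_lhs => rw [h5]
      rw [sum_union h6]
    rw [h4]
    simp only [one_mul]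
    ring
  have h4 := (hc n C G hnn2 hC hPR).2.1 (fun _ => 1) A T (fun _ => by simp)
  have h5 : ε * √(n : ℝ) * A.card ≤ ∑ a ∈ A, |∑ b ∈ T, 1 * ee G a b| := by
    calc ε * √(n : ℝ) * A.card = ∑ a ∈ A, ε * √(n : ℝ) := by
          rw [sum_const, nsmul_eq_mul]; ring
      _ ≤ _ := by
          apply sum_le_sum
          intro a ha
          rw [← h3 a ha]
          exact (mem_filter.mp ha).2.le
  have h6 : ε * √(n : ℝ) * A.card ≤
      4 * C * √((A.card : ℝ) * √(n : ℝ) * (2 * A.card) * Real.log n) := by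
    refine (h5.trans h4).trans ?_
    apply mul_le_mul_of_nonneg_left _ (by positivity)
    apply Real.sqrt_le_sqrt
    have e1 : (A.card : ℝ) * T.card ≤ A.card * √(n : ℝ) := mul_le_mul_of_nonneg_left hTc hA0.le
    have e2 : (A.card : ℝ) + T.card ≤ 2 * A.card := by linarith
    exact mul_le_mul_of_nonneg_right (mul_le_mul e1 e2 (by positivity) (by positivity)) hlog.le
  have h7 : (ε * √(n : ℝ) * A.card) ^ 2 ≤
      16 * C ^ 2 * ((A.card : ℝ) * √(n : ℝ) * (2 * A.card) * Real.log n) := by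
    calc (ε * √(n : ℝ) * A.card) ^ 2 ≤
        (4 * C * √((A.card : ℝ) * √(n : ℝ) * (2 * A.card) * Real.log n)) ^ 2 :=
          pow_le_pow_left₀ (by positivity) h6 2
      _ = _ := by rw [mul_pow, Real.sq_sqrt (by positivity)]; ring
  have h8 : ε ^ 2 * √(n : ℝ) ≤ 32 * C ^ 2 * Real.log n := by
    have e1 : (ε * √(n : ℝ) * A.card) ^ 2 = (ε ^ 2 * √(n : ℝ)) * (√(n : ℝ) * (A.card : ℝ) ^ 2) := by
      ring
    have e2 : 16 * C ^ 2 * ((A.card : ℝ) * √(n : ℝ) * (2 * A.card) * Real.log n) =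
        (32 * C ^ 2 * Real.log n) * (√(n : ℝ) * (A.card : ℝ) ^ 2) := by ring
    rw [e1, e2] at h7
    exact le_of_mul_le_mul_right h7 (by positivity)
  have h9 := h0 n hnn0
  have h10 : 32 * C ^ 2 * Real.log n ≤ ε ^ 2 * √(n : ℝ) / 2 := by
    calc 32 * C ^ 2 * Real.log n ≤ 32 * C ^ 2 * (ε ^ 2 / (64 * C ^ 2) * √(n : ℝ)) :=
          mul_le_mul_of_nonneg_left h9 (by positivity)
      _ = ε ^ 2 * √(n : ℝ) / 2 := by field_simp; norm_num
  have h11 : 0 < ε ^ 2 * √(n : ℝ) := by positivity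
  linarith

end

end Pool.Agent.W782.PK
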